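import Pool.Agent.helper34.AC.Spec

set_option autoImplicit false

namespace Pool.Agent.helper34.AC

theorem CLQ_sing {V : Type} [DecidableEq V] (G : SimpleGraph V) (U S : Finset V)
    (hU : ∀ x ∈ U, ∀ y ∈ U, x ≠ y → G.Adj x y) (hS : S ⊆ U) (hst : Stab G S) (x : V) (hx : x ∈ S) :
    S = {x} := by
  ext y
  rw [Finset.mem_singleton]
  constructor
  · intro hy
    by_contra hne
    exact hst x hx y hy (hU x (hS hx) y (hS hy) (fun h => hne h.symm))
  · rintro rfl
    exact hx

theorem CLQ_mem {V : Type} (G : SimpleGraph V) (U : Finset V) (P : Finset (Finset V)) :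
    P ∈ col G U ↔ P ∈ U.powerset.powerset ∧ IsCol G U P := by
  classical
  unfold col
  exact Finset.mem_filter

theorem CLQ_col {V : Type} [DecidableEq V] (G : SimpleGraph V) (U : Finset V)
    (hU : ∀ x ∈ U, ∀ y ∈ U, x ≠ y → G.Adj x y) :
    col G U = {U.image (fun x => ({x} : Finset V))} := by
  ext P
  rw [Finset.mem_singleton, CLQ_mem, Finset.mem_powerset]
  constructor
  · rintro ⟨-, h1, h2⟩
    ext S
    rw [Finset.mem_image]
    constructor
    · intro hS
      obtain ⟨⟨x, hx⟩, hSU, hst⟩ := h1 S hS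
      exact ⟨x, hSU hx, (CLQ_sing G U S hU hSU hst x hx).symm⟩
    · rintro ⟨x, hx, rfl⟩
      obtain ⟨S, ⟨hS, hxS⟩, -⟩ := h2 x hx
      obtain ⟨-, hSU, hst⟩ := h1 S hS
      rw [← CLQ_sing G U S hU hSU hst x hxS]
      exact hS
  · rintro rfl
    refine ⟨?_, ?_, ?_⟩
    · intro S hS
      rw [Finset.mem_image] at hS
      obtain ⟨x, hx, rfl⟩ := hS
      rw [Finset.mem_powerset, Finset.singleton_subset_iff]
      exact hx
    · intro S hS
      rw [Finset.mem_image] at hS
      obtain ⟨x, hx, rfl⟩ := hS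
      refine ⟨Finset.singleton_nonempty x, Finset.singleton_subset_iff.mpr hx, ?_⟩
      intro a ha b hb
      rw [Finset.mem_singleton] at ha hb
      rw [ha, hb]
      exact G.irrefl
    · intro v hv
      refine ⟨{v}, ⟨Finset.mem_image.mpr ⟨v, hv, rfl⟩, Finset.mem_singleton_self v⟩, ?_⟩
      rintro S ⟨hS, hvS⟩
      rw [Finset.mem_image] at hS
      obtain ⟨x, hx, rfl⟩ := hS
      rw [Finset.mem_singleton] at hvS
      rw [hvS]

theorem CLQ : CLQ_stmt := by
  intro V _ G U f hU
  rw [CLQ_col G U hU, Finset.sum_singleton, Finset.card_image_of_injective]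
  intro x y hxy
  exact Finset.singleton_injective hxy

end Pool.Agent.helper34.AC
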