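import Pool.Agent.helper34.AC.Spec2

set_option autoImplicit false

namespace Pool.Agent.helper34.AC

theorem WDE (hWEX : WEX_stmt) : WDE_stmt := by
  intro x hx
  obtain ⟨h1, h2, h3, h4, -⟩ := hWEX
  have hWx := h4 x hx
  have hcont : ContinuousAt W x := by
    refine continuousAt_of_monotoneOn_of_image_mem_nhds (s := Set.Ici 0) ?_ (Ici_mem_nhds hx) ?_
    · intro a ha b _ hab
      exact h3 a b ha hab
    · refine Filter.mem_of_superset (Ici_mem_nhds hWx) ?_
      intro w hw
      have hw0 : (0 : ℝ) ≤ w := hw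
      exact ⟨w * Real.exp w, mul_nonneg hw0 (Real.exp_pos w).le, h2 w hw0⟩
  have hder : HasDerivAt (fun w : ℝ => w * Real.exp w) ((1 + W x) * Real.exp (W x)) (W x) := by
    have h5 := (hasDerivAt_id (W x)).mul (Real.hasDerivAt_exp (W x))
    have h6 : (1 + W x) * Real.exp (W x) = 1 * Real.exp (W x) + id (W x) * Real.exp (W x) := by
      simp only [id]
      ring
    rw [h6]
    exact h5
  have hne : (1 + W x) * Real.exp (W x) ≠ 0 := by positivity
  have h7 := HasDerivAt.of_local_left_inverse hcont hder hne (by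
    filter_upwards [Ici_mem_nhds hx] with y hy
    exact (h1 y hy).2)
  rw [one_div]
  exact h7

end Pool.Agent.helper34.AC
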