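import Pool.Agent.helper34.AC.Spec4

/-!
# Project ac: (MP_e0bd72_co), module TAI: large blocks are rare
-/

set_option autoImplicit false

open Filter Topology

namespace Pool.Agent.helper34.AC

lemma TAI_N_nonneg {V : Type} (G : SimpleGraph V) (U : Finset V) : 0 ≤ N G U := by
  unfold N
  positivity

lemma TAI_Mk_nonneg {V : Type} [DecidableEq V] (G : SimpleGraph V) (X R : Finset V) (k : ℕ) :
    0 ≤ Mk G X R k := by
  unfold Mk
  exact Finset.sum_nonneg (fun S _ => mul_nonneg (Nat.cast_nonneg _) (TAI_N_nonneg G _))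

lemma TAI_desc (m s : ℕ) (hm : 8 ≤ m) (hs : m < 2 * s) :
    ((m : ℝ) / 4) ^ 3 ≤ (s.descFactorial 3 : ℝ) := by
  have h3 : 3 ≤ s := by omega
  obtain ⟨t, rfl⟩ : ∃ t, s = t + 2 := ⟨s - 2, by omega⟩
  have he : (t + 2).descFactorial 3 = (t + 2) * (t + 1) * t := by
    simp [Nat.descFactorial_succ, Nat.descFactorial_zero]
    ring
  rw [he]
  push_cast
  have hm' : (8 : ℝ) ≤ m := by exact_mod_cast hm
  have ht : (m : ℝ) / 4 ≤ t := by
    have h : m + 1 ≤ 2 * (t + 2) := by omega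
    have h' : (m : ℝ) + 1 ≤ 2 * ((t : ℝ) + 2) := by exact_mod_cast h
    linarith
  have h0 : 0 ≤ (m : ℝ) / 4 := by positivity
  have ht0 : 0 ≤ (t : ℝ) := le_trans h0 ht
  have h1 : (m : ℝ) / 4 ≤ (t : ℝ) + 1 := by linarith
  have h2 : (m : ℝ) / 4 ≤ (t : ℝ) + 2 := by linarith
  calc ((m : ℝ) / 4) ^ 3 = (m : ℝ) / 4 * ((m : ℝ) / 4) * ((m : ℝ) / 4) := by ring
    _ ≤ ((t : ℝ) + 2) * ((t : ℝ) + 1) * (t : ℝ) := by
        refine mul_le_mul (mul_le_mul h2 h1 h0 (by linarith)) ht h0 ?_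
        exact mul_nonneg (by linarith) (by linarith)

theorem TAI (hFM2 : FM2_stmt) (hRCN : RCN_stmt) (hOMF : OMF_stmt) : TAI_stmt := by
  obtain ⟨-, -, -, hg, -, -⟩ := hOMF
  obtain ⟨M0, hM0⟩ := Filter.eventually_atTop.1 (hg.eventually_gt_atTop 0)
  refine ⟨max M0 8, ?_⟩
  intro m hm V _ G U v o hU hv ho hOm hom
  have hm0 : M0 ≤ m := le_trans (le_max_left _ _) hm
  have hm8 : 8 ≤ m := le_trans (le_max_right _ _) hm
  have hgpos : 0 < gb m := hM0 m hm0
  have hmR : (8 : ℝ) ≤ m := by exact_mod_cast hm8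
  have hcard : (U.erase v).card = m := by
    rw [Finset.card_erase_of_mem hv, hU]; rfl
  have h0 := hFM2 V G {v} (U.erase v) o 0 ho hOm
  have h1 := hFM2 V G {v} (U.erase v) o 1 ho hOm
  have h2 := hFM2 V G {v} (U.erase v) o 2 ho hOm
  rw [hcard] at h0 h1 h2
  have hN : N G U = Mk G {v} (U.erase v) 0 := (hRCN V G U v hv).1
  have hM0n := TAI_Mk_nonneg G {v} (U.erase v) 0
  have hM1n := TAI_Mk_nonneg G {v} (U.erase v) 1
  -- the sum is at most `M_0`
  have hle0 : ∑ S ∈ (st G {v} (U.erase v)).filter (fun S => m < 2 * S.card), N G (U.erase v \ S)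
      ≤ Mk G {v} (U.erase v) 0 := by
    unfold Mk
    calc ∑ S ∈ (st G {v} (U.erase v)).filter (fun S => m < 2 * S.card), N G (U.erase v \ S)
        ≤ ∑ S ∈ st G {v} (U.erase v), N G (U.erase v \ S) :=
          Finset.sum_le_sum_of_subset_of_nonneg (Finset.filter_subset _ _)
            (fun S _ _ => TAI_N_nonneg G _)
      _ = ∑ S ∈ st G {v} (U.erase v), (S.card.descFactorial 0 : ℝ) * N G (U.erase v \ S) := by
          refine Finset.sum_congr rfl (fun S _ => ?_)
          rw [Nat.descFactorial_zero, Nat.cast_one, one_mul]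
  -- the sum times `(m/4)^3` is at most `M_3`
  have hle3 : ((m : ℝ) / 4) ^ 3 *
      ∑ S ∈ (st G {v} (U.erase v)).filter (fun S => m < 2 * S.card), N G (U.erase v \ S)
      ≤ Mk G {v} (U.erase v) 3 := by
    unfold Mk
    rw [Finset.mul_sum]
    calc ∑ S ∈ (st G {v} (U.erase v)).filter (fun S => m < 2 * S.card),
          ((m : ℝ) / 4) ^ 3 * N G (U.erase v \ S)
        ≤ ∑ S ∈ (st G {v} (U.erase v)).filter (fun S => m < 2 * S.card),
          (S.card.descFactorial 3 : ℝ) * N G (U.erase v \ S) := by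
          refine Finset.sum_le_sum (fun S hS => ?_)
          exact mul_le_mul_of_nonneg_right
            (TAI_desc m S.card hm8 (Finset.mem_filter.1 hS).2) (TAI_N_nonneg G _)
      _ ≤ ∑ S ∈ st G {v} (U.erase v), (S.card.descFactorial 3 : ℝ) * N G (U.erase v \ S) :=
          Finset.sum_le_sum_of_subset_of_nonneg (Finset.filter_subset _ _)
            (fun S _ _ => mul_nonneg (Nat.cast_nonneg _) (TAI_N_nonneg G _))
  rw [hN]
  generalize (∑ S ∈ (st G {v} (U.erase v)).filter (fun S => m < 2 * S.card), N G (U.erase v \ S)) = T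
    at hle0 hle3 ⊢
  rcases lt_or_ge (o m) 0 with hneg | hpos
  · have hz : Mk G {v} (U.erase v) 0 ≤ 0 := by
      by_contra hcon
      rw [not_le] at hcon
      have : o m * Mk G {v} (U.erase v) 0 < 0 := mul_neg_of_neg_of_pos hneg hcon
      linarith
    have hz' : Mk G {v} (U.erase v) 0 = 0 := le_antisymm hz hM0n
    rw [hz', mul_zero]
    linarith
  · have hchain : Mk G {v} (U.erase v) 3 ≤ o m ^ 3 * Mk G {v} (U.erase v) 0 := by
      calc Mk G {v} (U.erase v) 3 ≤ o m * Mk G {v} (U.erase v) 2 := h2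
        _ ≤ o m * (o m * Mk G {v} (U.erase v) 1) := mul_le_mul_of_nonneg_left h1 hpos
        _ ≤ o m * (o m * (o m * Mk G {v} (U.erase v) 0)) :=
            mul_le_mul_of_nonneg_left (mul_le_mul_of_nonneg_left h0 hpos) hpos
        _ = o m ^ 3 * Mk G {v} (U.erase v) 0 := by ring
    have ho2 : o m ≤ 2 * (m : ℝ) / gb m := by
      have : om m + 1 / gb m ≤ 2 * (m : ℝ) / gb m := by
        unfold om
        rw [← add_div]
        exact div_le_div_of_nonneg_right (by linarith) hgpos.le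
      linarith
    have ho3 : o m ^ 3 ≤ (2 * (m : ℝ) / gb m) ^ 3 := pow_le_pow_left₀ hpos ho2 3
    have hfin : ((m : ℝ) / 4) ^ 3 * T ≤ (2 * (m : ℝ) / gb m) ^ 3 * Mk G {v} (U.erase v) 0 :=
      le_trans hle3 (le_trans hchain (mul_le_mul_of_nonneg_right ho3 hM0n))
    have hmpos : 0 < (m : ℝ) := by linarith
    have hc : 0 < ((m : ℝ) / 4) ^ 3 := by positivity
    have heq : (2 * (m : ℝ) / gb m) ^ 3 = ((m : ℝ) / 4) ^ 3 * (512 / gb m ^ 3) := by
      field_simp
      norm_num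
    rw [heq, mul_assoc] at hfin
    exact le_of_mul_le_mul_left hfin hc

end Pool.Agent.helper34.AC
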